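import Pool.Agent.L7h46.MB.Cov

/-!
# Nonzero digits of most multiples of an algebraic number
-/

set_option autoImplicit false

open Finset

namespace Pool.Agent.L7h46.MB

open Pool.Agent.H820R3.DG (digit)

/-- the number of nonzero digits among the first `n` -/
noncomputable def oth (b : ℕ) (x : ℝ) (n : ℕ) : ℕ :=
  ((Icc 1 n).filter (fun p => digit b x p ≠ 0)).card

/-- the degree of a multiple -/
lemma deg_mul (x : ℝ) (halg : IsAlgebraic ℚ x) (q : ℚ) (hq : q ≠ 0) :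
    (minpoly ℚ ((q:ℝ) * x)).natDegree = (minpoly ℚ x).natDegree := by
  have h1 : IsIntegral ℚ x := halg.isIntegral
  have hqi : IsIntegral ℚ ((q:ℝ)) := by
    have := isIntegral_algebraMap (R := ℚ) (A := ℝ) (x := q)
    simpa using this
  have h2 : IsIntegral ℚ ((q:ℝ) * x) := hqi.mul h1
  rw [← IntermediateField.adjoin.finrank h1, ← IntermediateField.adjoin.finrank h2]
  have hqr : (q:ℝ) ≠ 0 := by exact_mod_cast hq
  have heq : IntermediateField.adjoin ℚ {(q:ℝ) * x} = IntermediateField.adjoin ℚ {x} := by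
    apply le_antisymm
    · rw [IntermediateField.adjoin_simple_le_iff]
      apply mul_mem
      · have := (IntermediateField.adjoin ℚ {x}).algebraMap_mem q
        simpa using this
      · exact IntermediateField.mem_adjoin_simple_self ℚ x
    · rw [IntermediateField.adjoin_simple_le_iff]
      have h3 : (q:ℝ) * x ∈ IntermediateField.adjoin ℚ {(q:ℝ) * x} :=
        IntermediateField.mem_adjoin_simple_self ℚ _
      have h4 : ((q⁻¹ : ℚ) : ℝ) ∈ IntermediateField.adjoin ℚ {(q:ℝ) * x} := by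
        have := (IntermediateField.adjoin ℚ {(q:ℝ) * x}).algebraMap_mem (q⁻¹)
        simpa using this
      have h5 := mul_mem h4 h3
      have e : ((q⁻¹ : ℚ) : ℝ) * ((q:ℝ) * x) = x := by
        push_cast
        field_simp
      rwa [e] at h5
  rw [heq]

/-- the windows of length `ℓ` -/
lemma oth_lower {b : ℕ} (hb : 2 ≤ b) (y : ℝ) (n l : ℕ) (G : Finset ℕ) (hG : G ⊆ range n)
    (h : ∀ k ∈ G, 1 / (b:ℝ) ^ l ≤ Int.fract (y * (b:ℝ) ^ k)) :
    G.card ≤ l * (oth b y n + l) := by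
  classical
  have h1 : G ⊆ (range l).biUnion (fun j => ((Icc 1 (n + l)).filter (fun p => digit b y p ≠ 0)).image
      (fun p => p - (j + 1))) := by
    intro k hk
    have hkn := mem_range.1 (hG hk)
    have h2 := h k hk
    by_contra hcon
    have h3 := fract_lt hb y k l (by
      intro j hj1 hj2
      by_contra h0
      apply hcon
      rw [mem_biUnion]
      refine ⟨j - 1, mem_range.2 (by omega), ?_⟩
      rw [mem_image]
      refine ⟨k + j, mem_filter.2 ⟨mem_Icc.2 ⟨by omega, by omega⟩, h0⟩, by omega⟩)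
    linarith
  have h2 : ((Icc 1 (n + l)).filter (fun p => digit b y p ≠ 0)).card ≤ oth b y n + l := by
    have h3 : (Icc 1 (n + l)).filter (fun p => digit b y p ≠ 0) ⊆
        (Icc 1 n).filter (fun p => digit b y p ≠ 0) ∪ Ioc n (n + l) := by
      intro p hp
      obtain ⟨hp1, hp2⟩ := mem_filter.1 hp
      rw [mem_Icc] at hp1
      rw [mem_union]
      rcases Nat.lt_or_ge n p with h | h
      · exact Or.inr (mem_Ioc.2 ⟨h, hp1.2⟩)
      · exact Or.inl (mem_filter.2 ⟨mem_Icc.2 ⟨hp1.1, h⟩, hp2⟩)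
    refine (card_le_card h3).trans ((card_union_le _ _).trans ?_)
    rw [Nat.card_Ioc]
    unfold oth
    omega
  refine (card_le_card h1).trans (card_biUnion_le.trans ?_)
  refine (sum_le_sum fun j _ => card_image_le.trans h2).trans ?_
  rw [sum_const, card_range, smul_eq_mul]

/-- one multiple: all `n` -/
lemma one_mult {b : ℕ} (hb : 2 ≤ b) {x : ℝ} (halg : IsAlgebraic ℚ x) (hirr : Irrational x)
    {D : ℕ} (hD : (minpoly ℚ x).natDegree = D) :
    ∃ c : ℝ, 0 < c ∧ ∃ n0 : ℕ, ∀ n : ℕ, n0 ≤ n →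
      c * (n:ℝ) ^ (1 / (D:ℝ)) ≤ oth b x n := by
  obtain ⟨c0, hc0, n0, h⟩ := places_lower hb halg hirr hD
  have hD1 : 1 ≤ D := by
    rw [← hD]
    exact minpoly.natDegree_pos halg.isIntegral
  have hD0 : (0:ℝ) < D := by exact_mod_cast hD1
  have hcD : 0 < c0 ^ (1 / (D:ℝ)) := Real.rpow_pos_of_pos hc0 _
  -- `n` large
  obtain ⟨n1, hn1⟩ := exists_nat_ge ((4 / c0 ^ (1 / (D:ℝ))) ^ (D:ℝ))
  refine ⟨c0 ^ (1 / (D:ℝ)) / 2, by positivity, max n0 n1, fun n hn => ?_⟩
  have h1 := h n ((le_max_left _ _).trans hn) 1 le_rfl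
  rw [Nat.cast_one, one_pow, mul_one] at h1
  have h2 := oth_lower hb x n 1 (Pl b x n (1 / (b:ℝ) ^ 1)) (by
    unfold Pl; exact filter_subset _ _) (by
    intro k hk
    unfold Pl at hk
    exact (mem_filter.1 hk).2)
  rw [Nat.one_mul] at h2
  have h2r : (((Pl b x n (1 / (b:ℝ) ^ 1)).card : ℕ) : ℝ) ≤ oth b x n + 1 := by exact_mod_cast h2
  have h3 : c0 * n ≤ ((oth b x n : ℝ) + 2) ^ D := by
    refine h1.trans (pow_le_pow_left₀ (by positivity) ?_ _)
    linarith
  have h4 : (c0 * n) ^ (1 / (D:ℝ)) ≤ (oth b x n : ℝ) + 2 := by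
    have h5 := Real.rpow_le_rpow (by positivity) h3 (by positivity : (0:ℝ) ≤ 1 / (D:ℝ))
    rwa [← Real.rpow_natCast, ← Real.rpow_mul (by positivity), mul_one_div_cancel hD0.ne',
      Real.rpow_one] at h5
  rw [Real.mul_rpow hc0.le (Nat.cast_nonneg _)] at h4
  have h5 : 4 ≤ c0 ^ (1 / (D:ℝ)) * (n:ℝ) ^ (1 / (D:ℝ)) := by
    have h6 : (4 / c0 ^ (1 / (D:ℝ))) ^ (D:ℝ) ≤ n :=
      hn1.trans (by exact_mod_cast (le_max_right _ _).trans hn)
    have h7 := Real.rpow_le_rpow (by positivity) h6 (by positivity : (0:ℝ) ≤ 1 / (D:ℝ))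
    rw [← Real.rpow_mul (by positivity), mul_one_div_cancel hD0.ne', Real.rpow_one,
      div_le_iff₀ hcD] at h7
    linarith
  linarith

/-- bounded multiples -/
lemma small_mult {b : ℕ} (hb : 2 ≤ b) {x : ℝ} (halg : IsAlgebraic ℚ x) (hirr : Irrational x)
    {D : ℕ} (hD : (minpoly ℚ x).natDegree = D) (M0 : ℕ) :
    ∃ c : ℝ, 0 < c ∧ ∃ n0 : ℕ, ∀ n : ℕ, n0 ≤ n → ∀ m : ℕ, 1 ≤ m → m ≤ M0 →
      c * (n:ℝ) ^ (1 / (D:ℝ)) ≤ oth b (m * x) n := by
  induction M0 with
  | zero => exact ⟨1, one_pos, 0, fun n _ m h1 h2 => by omega⟩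
  | succ M0 ih =>
    obtain ⟨c1, hc1, n1, h1⟩ := ih
    have halg' : IsAlgebraic ℚ (((M0 + 1 : ℕ) : ℝ) * x) := (isAlgebraic_natCast _).mul halg
    have hirr' : Irrational (((M0 + 1 : ℕ) : ℝ) * x) := hirr.natCast_mul (by omega)
    have hD' : (minpoly ℚ (((M0 + 1 : ℕ) : ℝ) * x)).natDegree = D := by
      have := deg_mul x halg ((M0 + 1 : ℕ) : ℚ) (by exact_mod_cast (by omega : M0 + 1 ≠ 0))
      rw [← hD, ← this]
      congr 2
    obtain ⟨c2, hc2, n2, h2⟩ := one_mult hb halg' hirr' hD'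
    refine ⟨min c1 c2, lt_min hc1 hc2, max n1 n2, fun n hn m hm1 hm2 => ?_⟩
    have hn0 : (0:ℝ) ≤ (n:ℝ) ^ (1 / (D:ℝ)) := by positivity
    rcases Nat.lt_or_ge m (M0 + 1) with h | h
    · have := h1 n ((le_max_left _ _).trans hn) m hm1 (by omega)
      refine le_trans ?_ this
      exact mul_le_mul_of_nonneg_right (min_le_left _ _) hn0
    · have hm : m = M0 + 1 := by omega
      rw [hm]
      have := h2 n ((le_max_right _ _).trans hn)
      refine le_trans ?_ this
      exact mul_le_mul_of_nonneg_right (min_le_right _ _) hn0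

end Pool.Agent.L7h46.MB
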