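import Mathlib

/-!
# The multiples of a real number in a short arc to the right of zero
-/

set_option autoImplicit false

open Finset

namespace Pool.Agent.L7h46.MB

/-- an arithmetic progression modulo one in a short arc -/
lemma prog_count (γ σ τ : ℝ) (hσ : σ ≠ 0) (hτ : 0 ≤ τ) (T : ℕ) :
    (((range T).filter (fun t : ℕ => Int.fract (γ + t * σ) < τ)).card : ℝ) ≤
      (T * |σ| + 2) * (τ / |σ| + 1) := by
  classical
  have hσ0 : 0 < |σ| := abs_pos.2 hσ
  set S := (range T).filter (fun t : ℕ => Int.fract (γ + t * σ) < τ) with hS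
  -- the values of the floor
  set lo : ℝ := min γ (γ + T * σ) with hlo
  set hi : ℝ := max γ (γ + T * σ) with hhi
  have hhl : hi - lo = T * |σ| := by
    have hT0 : (0:ℝ) ≤ T := Nat.cast_nonneg _
    rcases le_total 0 σ with h | h
    · have h1 : γ ≤ γ + T * σ := by nlinarith
      rw [hhi, hlo, max_eq_right h1, min_eq_left h1, abs_of_nonneg h]; ring
    · have h1 : γ + T * σ ≤ γ := by nlinarith
      rw [hhi, hlo, max_eq_left h1, min_eq_right h1, abs_of_nonpos h]; ring
  have hmaps : ∀ t ∈ S, ⌊γ + t * σ⌋ ∈ Icc ⌊lo⌋ ⌊hi⌋ := by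
    intro t ht
    have htT : (t:ℝ) ≤ T := by
      have := (mem_filter.1 ht).1
      rw [mem_range] at this
      exact_mod_cast this.le
    have ht0 : (0:ℝ) ≤ t := Nat.cast_nonneg _
    rw [mem_Icc]
    constructor
    · apply Int.floor_mono
      rcases le_total 0 σ with h | h
      · exact (min_le_left _ _).trans (by nlinarith)
      · exact (min_le_right _ _).trans (by nlinarith)
    · apply Int.floor_mono
      rcases le_total 0 σ with h | h
      · exact le_trans (by nlinarith) (le_max_right _ _)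
      · exact le_trans (by nlinarith) (le_max_left _ _)
  have hfib : ∀ z ∈ Icc ⌊lo⌋ ⌊hi⌋, ((S.filter (fun t : ℕ => ⌊γ + t * σ⌋ = z)).card : ℝ) ≤ τ / |σ| + 1 := by
    intro z _
    set F := S.filter (fun t : ℕ => ⌊γ + t * σ⌋ = z) with hF
    rcases F.eq_empty_or_nonempty with h0 | hne
    · rw [h0]
      have : 0 ≤ τ / |σ| := by positivity
      simp only [card_empty, Nat.cast_zero]
      linarith
    · set t0 := F.min' hne with ht0
      have h1 : F ⊆ Icc t0 (t0 + ⌊τ / |σ|⌋₊) := by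
        intro t ht
        rw [mem_Icc]
        have hle : t0 ≤ t := F.min'_le t ht
        refine ⟨hle, ?_⟩
        have hmem0 : t0 ∈ F := F.min'_mem hne
        have a1 := (mem_filter.1 ht)
        have a2 := (mem_filter.1 hmem0)
        have b1 := (mem_filter.1 a1.1).2
        have b2 := (mem_filter.1 a2.1).2
        have c1 : Int.fract (γ + t * σ) = γ + t * σ - z := by
          rw [← a1.2]; rfl
        have c2 : Int.fract (γ + t0 * σ) = γ + t0 * σ - z := by
          rw [← a2.2]; rfl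
        have d1 := Int.fract_nonneg (γ + t * σ)
        have d2 := Int.fract_nonneg (γ + t0 * σ)
        rw [c1] at b1 d1
        rw [c2] at b2 d2
        have hle' : (t0:ℝ) ≤ t := by exact_mod_cast hle
        have h2 : ((t:ℝ) - t0) * |σ| ≤ τ := by
          rcases le_total 0 σ with h | h
          · rw [abs_of_nonneg h]; nlinarith
          · rw [abs_of_nonpos h]; nlinarith
        have h3 : ((t - t0 : ℕ) : ℝ) ≤ τ / |σ| := by
          rw [Nat.cast_sub hle, le_div_iff₀ hσ0]; exact h2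
        have h4 : t - t0 ≤ ⌊τ / |σ|⌋₊ := Nat.le_floor h3
        omega
      have h2 := card_le_card h1
      rw [Nat.card_Icc] at h2
      have h3 : F.card ≤ ⌊τ / |σ|⌋₊ + 1 := by omega
      have h4 : (⌊τ / |σ|⌋₊ : ℝ) ≤ τ / |σ| := Nat.floor_le (by positivity)
      calc (F.card : ℝ) ≤ (⌊τ / |σ|⌋₊ : ℝ) + 1 := by exact_mod_cast h3
        _ ≤ _ := by linarith
  have hcard : (S.card : ℝ) = ∑ z ∈ Icc ⌊lo⌋ ⌊hi⌋, ((S.filter (fun t : ℕ => ⌊γ + t * σ⌋ = z)).card : ℝ) := by
    rw [card_eq_sum_card_fiberwise (f := fun t : ℕ => ⌊γ + t * σ⌋) (t := Icc ⌊lo⌋ ⌊hi⌋)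
      (fun t ht => hmaps t ht)]
    push_cast
    rfl
  rw [hcard]
  refine (sum_le_sum hfib).trans ?_
  rw [sum_const, nsmul_eq_mul]
  have h1 : (((Icc ⌊lo⌋ ⌊hi⌋).card : ℕ) : ℝ) ≤ T * |σ| + 2 := by
    rw [Int.card_Icc]
    have h2 := Int.floor_le hi
    have h3 := Int.lt_floor_add_one lo
    have h4 : lo ≤ hi := min_le_max
    have h5 : ⌊lo⌋ ≤ ⌊hi⌋ := Int.floor_mono h4
    have h6 : (((⌊hi⌋ + 1 - ⌊lo⌋).toNat : ℕ) : ℝ) = ((⌊hi⌋ + 1 - ⌊lo⌋ : ℤ) : ℝ) := by
      have := Int.toNat_of_nonneg (by omega : (0:ℤ) ≤ ⌊hi⌋ + 1 - ⌊lo⌋)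
      exact_mod_cast this
    rw [h6]
    push_cast
    linarith
  have h2 : 0 ≤ τ / |σ| + 1 := by positivity
  exact mul_le_mul_of_nonneg_right h1 h2

/-- **The multiples of `θ` in a short arc to the right of zero.** -/
theorem arc_count (θ : ℝ) (hθ : Irrational θ) (Q : ℕ) (hQ : 1 ≤ Q) (M : ℕ) (hM : 16 * Q ^ 2 ≤ M)
    (τ : ℝ) (hτ0 : 0 < τ) (hτ : τ ≤ 1 / (16 * (Q:ℝ) ^ 2))
    (hg : (Q.factorial : ℝ) / (2 * M) ≤ Int.fract (Q.factorial * θ)) :
    (((Icc 1 M).filter (fun m : ℕ => Int.fract (m * θ) < τ)).card : ℝ) ≤ 2 * M / Q := by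
  classical
  have hQr : (1:ℝ) ≤ Q := by exact_mod_cast hQ
  have hMr : 16 * (Q:ℝ) ^ 2 ≤ M := by exact_mod_cast hM
  have hM0 : (0:ℝ) < M := by nlinarith
  set S := (Icc 1 M).filter (fun m : ℕ => Int.fract (m * θ) < τ) with hS
  rcases Nat.lt_or_ge (M / (Q + 1) + 1) S.card with hbig | hsmall
  swap
  · -- few elements
    have h1 : (S.card : ℝ) ≤ ((M / (Q + 1) : ℕ) : ℝ) + 1 := by exact_mod_cast hsmall
    have h2 : ((M / (Q + 1) : ℕ) : ℝ) ≤ (M:ℝ) / ((Q + 1 : ℕ) : ℝ) := Nat.cast_div_le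
    have h3 : (M:ℝ) / ((Q + 1 : ℕ) : ℝ) ≤ M / Q := by
      push_cast
      gcongr
      linarith
    have h4 : (1:ℝ) ≤ M / Q := by
      rw [le_div_iff₀ (by linarith)]; nlinarith
    have h5 : 2 * (M:ℝ) / Q = M / Q + M / Q := by ring
    linarith
  · -- two near elements
    obtain ⟨m1, hm1, m2, hm2, hne, heq⟩ := exists_ne_map_eq_of_card_lt_of_maps_to
      (s := S) (t := range (M / (Q + 1) + 1)) (by rwa [card_range]) (f := fun m => m / (Q + 1))
      (by
        intro m hm
        have := (mem_Icc.1 (mem_filter.1 (mem_coe.1 hm)).1).2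
        rw [mem_coe, mem_range]
        exact Nat.lt_succ_of_le (Nat.div_le_div_right this))
    -- an ordered pair
    obtain ⟨m, m', hm, hm', hlt, hdist⟩ : ∃ m m' : ℕ, m ∈ S ∧ m' ∈ S ∧ m < m' ∧ m' - m ≤ Q := by
      have key : ∀ x y : ℕ, x / (Q + 1) = y / (Q + 1) → x < y → y - x ≤ Q := by
        intro x y hxy _
        have e1 := Nat.div_add_mod x (Q + 1)
        have e2 := Nat.div_add_mod y (Q + 1)
        have l1 := Nat.mod_lt x (by omega : 0 < Q + 1)
        have l2 := Nat.mod_lt y (by omega : 0 < Q + 1)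
        rw [hxy] at e1
        omega
      rcases lt_or_gt_of_ne hne with h | h
      · exact ⟨m1, m2, hm1, hm2, h, key _ _ heq h⟩
      · exact ⟨m2, m1, hm2, hm1, h, key _ _ heq.symm h⟩
    set q := m' - m with hq
    have hq1 : 1 ≤ q := by omega
    have hqQ : (q:ℝ) ≤ Q := by exact_mod_cast hdist
    have hq1r : (1:ℝ) ≤ q := by exact_mod_cast hq1
    have hmm : (m':ℝ) = m + q := by
      rw [hq, Nat.cast_sub hlt.le]; ring
    set a : ℤ := ⌊(m':ℝ) * θ⌋ - ⌊(m:ℝ) * θ⌋ with ha
    set σ : ℝ := Int.fract ((m':ℝ) * θ) - Int.fract ((m:ℝ) * θ) with hσ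
    have hqθ : (q:ℝ) * θ = a + σ := by
      rw [ha, hσ, Int.fract, Int.fract, hmm]; push_cast; ring
    have hf1 := (mem_filter.1 hm).2
    have hf2 := (mem_filter.1 hm').2
    have hf3 := Int.fract_nonneg ((m:ℝ) * θ)
    have hf4 := Int.fract_nonneg ((m':ℝ) * θ)
    have hστ : |σ| < τ := by rw [abs_lt]; constructor <;> linarith
    have hσ0 : σ ≠ 0 := by
      intro h0
      rw [h0, add_zero] at hqθ
      exact (hθ.natCast_mul (by omega : q ≠ 0)).ne_int a hqθ
    have hσp : 0 < |σ| := abs_pos.2 hσ0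
    have hτQ : τ * (16 * (Q:ℝ) ^ 2) ≤ 1 := by rwa [le_div_iff₀ (by positivity)] at hτ
    rcases le_or_gt (1 / (2 * (M:ℝ))) |σ| with hA | hB
    · -- case A: count
      have hinv : 1 / |σ| ≤ 2 * M := by
        rw [div_le_iff₀ hσp]
        rw [div_le_iff₀ (by positivity)] at hA
        linarith
      have hcov : S ⊆ (range q).biUnion (fun r => ((range (M / q + 1)).filter
          (fun t : ℕ => Int.fract ((r:ℝ) * θ + t * σ) < τ)).image (fun t => r + q * t)) := by
        intro x hx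
        obtain ⟨hx1, hx2⟩ := mem_filter.1 hx
        rw [mem_Icc] at hx1
        rw [mem_biUnion]
        refine ⟨x % q, mem_range.2 (Nat.mod_lt _ (by omega)), ?_⟩
        rw [mem_image]
        refine ⟨x / q, ?_, Nat.mod_add_div x q⟩
        rw [mem_filter, mem_range]
        refine ⟨Nat.lt_succ_of_le (Nat.div_le_div_right hx1.2), ?_⟩
        have e1 : (x:ℝ) = ((x % q : ℕ) : ℝ) + q * ((x / q : ℕ) : ℝ) := by
          have := Nat.mod_add_div x q
          exact_mod_cast this.symm
        generalize x % q = r at e1 ⊢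
        generalize x / q = t at e1 ⊢
        have e2 : (x:ℝ) * θ = (r : ℝ) * θ + (t : ℝ) * σ + (((t : ℤ) * a : ℤ) : ℝ) := by
          have h0 : (x:ℝ) * θ = (r : ℝ) * θ + (t : ℝ) * (q * θ) := by rw [e1]; ring
          rw [h0, hqθ]
          push_cast
          ring
        rw [e2, Int.fract_add_intCast] at hx2
        exact hx2
      have h1 : (S.card : ℝ) ≤ q * ((((M / q + 1 : ℕ) : ℝ) * |σ| + 2) * (τ / |σ| + 1)) := by
        have h2 := (card_le_card hcov).trans card_biUnion_le
        have h3 : (S.card : ℝ) ≤ ∑ r ∈ range q, ((((range (M / q + 1)).filter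
          (fun t : ℕ => Int.fract ((r:ℝ) * θ + t * σ) < τ)).card : ℕ) : ℝ) := by
          have h4 : S.card ≤ ∑ r ∈ range q, ((range (M / q + 1)).filter
            (fun t : ℕ => Int.fract ((r:ℝ) * θ + t * σ) < τ)).card :=
            h2.trans (sum_le_sum fun r _ => card_image_le)
          exact_mod_cast h4
        refine h3.trans ((sum_le_sum fun r _ => prog_count _ σ τ hσ0 hτ0.le _).trans ?_)
        rw [sum_const, card_range, nsmul_eq_mul]
      have h2 : ((M / q + 1 : ℕ) : ℝ) * q ≤ M + Q := by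
        have h3 : M / q * q ≤ M := Nat.div_mul_le_self M q
        have h4 : ((M / q : ℕ) : ℝ) * q ≤ M := by exact_mod_cast h3
        push_cast
        linarith
      have h3 : (q:ℝ) * ((((M / q + 1 : ℕ) : ℝ) * |σ| + 2) * (τ / |σ| + 1)) ≤
          ((M + Q) * |σ| + 2 * Q) * (τ / |σ| + 1) := by
        have h4 : 0 ≤ τ / |σ| + 1 := by positivity
        have h5 : (q:ℝ) * (((M / q + 1 : ℕ) : ℝ) * |σ| + 2) ≤ (M + Q) * |σ| + 2 * Q := by
          have : (q:ℝ) * (((M / q + 1 : ℕ) : ℝ) * |σ| + 2) =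
            (((M / q + 1 : ℕ) : ℝ) * q) * |σ| + 2 * q := by ring
          rw [this]
          have h6 := mul_le_mul_of_nonneg_right h2 hσp.le
          linarith
        calc _ = ((q:ℝ) * (((M / q + 1 : ℕ) : ℝ) * |σ| + 2)) * (τ / |σ| + 1) := by ring
          _ ≤ _ := mul_le_mul_of_nonneg_right h5 h4
      have h4 : ((M + Q) * |σ| + 2 * Q) * (τ / |σ| + 1) =
          (M + Q) * τ + (M + Q) * |σ| + 2 * Q * τ * (1 / |σ|) + 2 * Q := by
        field_simp
        ring
      have h5 : (M + Q) * τ + (M + Q) * |σ| + 2 * Q * τ * (1 / |σ|) + 2 * Q ≤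
          2 * (M + Q) * τ + 4 * Q * τ * M + 2 * Q := by
        have h6 : ((M:ℝ) + Q) * |σ| ≤ (M + Q) * τ := by gcongr
        have h7 : 2 * Q * τ * (1 / |σ|) ≤ 2 * Q * τ * (2 * M) := by gcongr
        linarith
      have h6 : 2 * ((M:ℝ) + Q) * τ + 4 * Q * τ * M + 2 * Q ≤ 2 * M / Q := by
        rw [le_div_iff₀ (by linarith)]
        have a1 : τ * Q ^ 2 ≤ 1 / 16 := by linarith
        have a2 : τ * Q ≤ 1 / 16 := by
          have : τ * Q ≤ τ * Q ^ 2 := by
            apply mul_le_mul_of_nonneg_left _ hτ0.le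
            nlinarith
          linarith
        have a3 : (2 * ((M:ℝ) + Q) * τ + 4 * Q * τ * M + 2 * Q) * Q =
          2 * M * (τ * Q) + 2 * (τ * Q ^ 2) + 4 * M * (τ * Q ^ 2) + 2 * Q ^ 2 := by ring
        rw [a3]
        nlinarith
      linarith
    · rcases lt_or_gt_of_ne hσ0 with hneg | hpos
      · -- case C: nothing
        exfalso
        have hσM : |σ| * (2 * M) < 1 := by rwa [lt_div_iff₀ (by positivity)] at hB
        rw [abs_of_neg hneg] at hσM
        obtain ⟨hmI, -⟩ := mem_filter.1 hm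
        rw [mem_Icc] at hmI
        have hm1r : (1:ℝ) ≤ m := by exact_mod_cast hmI.1
        have hmMr : (m:ℝ) ≤ M := by exact_mod_cast hmI.2
        set z : ℤ := ⌊(m:ℝ) * θ⌋ with hz
        have hfz : Int.fract ((m:ℝ) * θ) = m * θ - z := rfl
        rw [hfz] at hf1 hf3
        set w : ℤ := m * a - q * z with hw
        have e1 : (w:ℝ) + m * σ = q * (m * θ - z) := by
          have : (q:ℝ) * (m * θ - z) = m * (q * θ) - q * z := by ring
          rw [this, hqθ, hw]; push_cast; ring
        have h1 : 0 ≤ (w:ℝ) + m * σ := by rw [e1]; positivity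
        have h2 : (w:ℝ) + m * σ < q * τ := by
          rw [e1]; exact mul_lt_mul_of_pos_left hf1 (by linarith)
        have h3 : (0:ℝ) < w := by
          have : m * σ < 0 := mul_neg_of_pos_of_neg (by linarith) hneg
          linarith
        have h4 : (1:ℝ) ≤ w := by
          have : (0:ℤ) < w := by exact_mod_cast h3
          exact_mod_cast this
        have h5 : -(m * σ) ≤ 1 / 2 := by
          have : (m:ℝ) * (-σ) ≤ M * (-σ) := mul_le_mul_of_nonneg_right hmMr (by linarith)
          linarith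
        have h6 : (q:ℝ) * τ ≤ 1 / 16 := by
          have : (q:ℝ) * τ ≤ Q ^ 2 * τ := by
            apply mul_le_mul_of_nonneg_right _ hτ0.le
            nlinarith
          linarith
        linarith
      · -- case B: not good
        exfalso
        rw [abs_of_pos hpos] at hB
        obtain ⟨f, hf⟩ : q ∣ Q.factorial := Nat.dvd_factorial (by omega) hdist
        have hf0 : (0:ℝ) ≤ f := Nat.cast_nonneg _
        have hfr : (Q.factorial : ℝ) = q * f := by rw [hf]; push_cast; ring
        have e1 : (Q.factorial : ℝ) * θ = f * σ + (((f:ℤ) * a : ℤ) : ℝ) := by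
          have : (Q.factorial : ℝ) * θ = f * (q * θ) := by rw [hfr]; ring
          rw [this, hqθ]; push_cast; ring
        rw [e1, Int.fract_add_intCast] at hg
        have h1 : Int.fract ((f:ℝ) * σ) ≤ f * σ := by
          have h2 : (0:ℝ) ≤ f * σ := by positivity
          have h3 := Int.floor_nonneg.2 h2
          have h4 : (0:ℝ) ≤ (⌊(f:ℝ) * σ⌋ : ℝ) := by exact_mod_cast h3
          rw [Int.fract]; linarith
        have hfpos : (0:ℝ) < f := by
          rcases Nat.eq_zero_or_pos f with h | h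
          · rw [h, mul_zero] at hf
            exact absurd hf (Nat.factorial_ne_zero Q)
          · exact_mod_cast h
        have h2 : (f:ℝ) * σ < f * (1 / (2 * M)) := mul_lt_mul_of_pos_left hB hfpos
        have h3 : (f:ℝ) * (1 / (2 * M)) ≤ (Q.factorial : ℝ) / (2 * M) := by
          rw [mul_one_div, hfr]
          gcongr
          nlinarith
        linarith

end Pool.Agent.L7h46.MB
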