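import Pool.Agent.L7h46.MB.Arc
import Pool.Agent.R474.AG.Fin

/-!
# Places which are followed by a nonzero digit
-/

set_option autoImplicit false

open Finset

namespace Pool.Agent.L7h46.MB

open Pool.Agent.H820R3.DG (digit)

/-- the digits after the place `k` are zero if the fractional part is small -/
lemma dig_zero {b : ℕ} (hb : 2 ≤ b) (x : ℝ) (k L : ℕ)
    (h : Int.fract (x * (b:ℝ) ^ k) < 1 / (b:ℝ) ^ L) (j : ℕ) (hj1 : 1 ≤ j) (hj2 : j ≤ L) :
    digit b x (k + j) = 0 := by
  unfold digit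
  have hb0 : (0:ℝ) < b := by
    have : 0 < b := by omega
    exact_mod_cast this
  have hb1 : (1:ℝ) ≤ b := by
    have : 1 ≤ b := by omega
    exact_mod_cast this
  set z := ⌊x * (b:ℝ) ^ k⌋ with hz
  have h1 : ⌊x * (b:ℝ) ^ (k + j)⌋ = z * (b:ℤ) ^ j := by
    rw [Int.floor_eq_iff]
    have e1 : x * (b:ℝ) ^ (k + j) = (z + Int.fract (x * (b:ℝ) ^ k)) * (b:ℝ) ^ j := by
      rw [hz, Int.floor_add_fract, pow_add]; ring
    rw [e1]
    push_cast
    have hf := Int.fract_nonneg (x * (b:ℝ) ^ k)
    have hbj : (0:ℝ) < (b:ℝ) ^ j := by positivity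
    have hbL : (b:ℝ) ^ j ≤ (b:ℝ) ^ L := pow_le_pow_right₀ hb1 hj2
    have h2 : Int.fract (x * (b:ℝ) ^ k) * (b:ℝ) ^ j < 1 := by
      calc Int.fract (x * (b:ℝ) ^ k) * (b:ℝ) ^ j < 1 / (b:ℝ) ^ L * (b:ℝ) ^ j :=
            mul_lt_mul_of_pos_right h hbj
        _ ≤ 1 / (b:ℝ) ^ L * (b:ℝ) ^ L := by gcongr
        _ = 1 := by field_simp
    constructor
    · nlinarith [mul_nonneg hf hbj.le]
    · nlinarith
  rw [h1]
  obtain ⟨i, rfl⟩ := Nat.exists_eq_add_of_le hj1
  rw [pow_add, pow_one, ← mul_assoc, mul_comm z, mul_assoc, Int.mul_emod_right]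

/-- if the digits after the place `k` are zero then the fractional part is small -/
lemma fract_lt {b : ℕ} (hb : 2 ≤ b) (x : ℝ) (k L : ℕ)
    (h : ∀ j, 1 ≤ j → j ≤ L → digit b x (k + j) = 0) :
    Int.fract (x * (b:ℝ) ^ k) < 1 / (b:ℝ) ^ L := by
  have hb0 : (0:ℝ) < b := by
    have : 0 < b := by omega
    exact_mod_cast this
  have h1 : ∀ j ≤ L, ⌊x * (b:ℝ) ^ (k + j)⌋ = ⌊x * (b:ℝ) ^ k⌋ * (b:ℤ) ^ j := by
    intro j
    induction j with
    | zero => intro _; simp
    | succ j ih =>
      intro hj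
      have ih' := ih (by omega)
      have hd := h (j + 1) (by omega) hj
      unfold digit at hd
      -- `⌊b y⌋ = b ⌊y⌋ + digit`
      have e0 : x * (b:ℝ) ^ (k + (j + 1)) = (x * (b:ℝ) ^ (k + j)) * b := by
        rw [← Nat.add_assoc, pow_succ]; ring
      obtain ⟨c, hc⟩ := Int.dvd_of_emod_eq_zero hd
      have hfl : c = ⌊x * (b:ℝ) ^ (k + j)⌋ := by
        symm
        rw [Int.floor_eq_iff]
        have a1 := Int.floor_le (x * (b:ℝ) ^ (k + (j + 1)))
        have a2 := Int.lt_floor_add_one (x * (b:ℝ) ^ (k + (j + 1)))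
        rw [hc, e0] at a1 a2
        push_cast at a1 a2
        have hb1 : (1:ℝ) ≤ b := by
          have : 1 ≤ b := by omega
          exact_mod_cast this
        constructor
        · by_contra hcon
          push Not at hcon
          have := mul_lt_mul_of_pos_right hcon hb0
          linarith
        · by_contra hcon
          push Not at hcon
          have := mul_le_mul_of_nonneg_right hcon hb0.le
          nlinarith
      rw [hc, hfl, ih', pow_succ]
      ring
  have h2 := h1 L le_rfl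
  have e1 : Int.fract (x * (b:ℝ) ^ k) * (b:ℝ) ^ L = Int.fract (x * (b:ℝ) ^ (k + L)) := by
    rw [Int.fract, Int.fract, h2]
    push_cast
    rw [pow_add]
    ring
  have h3 := Int.fract_lt_one (x * (b:ℝ) ^ (k + L))
  rw [← e1] at h3
  rwa [lt_div_iff₀ (by positivity)]

open Classical in
/-- a greedy covering by intervals of the length `L` -/
lemma greedy (P : ℕ → Prop) (L : ℕ) (hL : 1 ≤ L) (n : ℕ) : ∀ N, N ≤ n →
    ∃ (K : ℕ) (u : ℕ → ℕ),
      (∀ p, 1 ≤ p → p ≤ N → P p → ∃ i < K, u i ≤ p ∧ p ≤ u i + (L - 1)) ∧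
      (∀ i < K, u i ≤ N) ∧
      (K = 0 ∨ (1 ≤ K ∧ 1 ≤ u (K - 1) ∧ u (K - 1) ≤ N ∧
        (K - 1) * L ≤ ((range (u (K - 1))).filter
          (fun k => ∃ p, P p ∧ p ≤ n ∧ k < p ∧ p ≤ k + L)).card)) := by
  intro N
  induction N with
  | zero =>
    intro _
    exact ⟨0, fun _ => 0, fun p h1 h2 => by omega, fun i hi => by omega, Or.inl rfl⟩
  | succ N ih =>
    intro hN
    obtain ⟨K, u, hcov, huN, hK⟩ := ih (by omega)
    by_cases hP : P (N + 1) ∧ ∀ i < K, u i + (L - 1) < N + 1
    · obtain ⟨hP, hlast⟩ := hP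
      refine ⟨K + 1, Function.update u K (N + 1), ?_, ?_, Or.inr ?_⟩
      · intro p hp1 hp2 hPp
        rcases Nat.lt_succ_iff_lt_or_eq.1 (Nat.lt_succ_of_le hp2) with h | h
        · obtain ⟨i, hi, h1, h2⟩ := hcov p hp1 (by omega) hPp
          refine ⟨i, by omega, ?_, ?_⟩
          · rw [Function.update_of_ne hi.ne]; exact h1
          · rw [Function.update_of_ne hi.ne]; exact h2
        · refine ⟨K, by omega, ?_, ?_⟩
          · rw [Function.update_self]; omega
          · rw [Function.update_self]; omega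
      · intro i hi
        rcases Nat.lt_succ_iff_lt_or_eq.1 hi with h | h
        · rw [Function.update_of_ne h.ne]; have := huN i h; omega
        · rw [h, Function.update_self]
      · rw [Nat.add_sub_cancel, Function.update_self]
        refine ⟨by omega, by omega, le_rfl, ?_⟩
        rcases hK with h0 | ⟨hK1, hu1, hu2, hcard⟩
        · rw [h0, Nat.zero_mul]; exact Nat.zero_le _
        · have hl := hlast (K - 1) (by omega)
          -- the old places and `L` new places
          have hsub : (range (u (K - 1))).filter (fun k => ∃ p, P p ∧ p ≤ n ∧ k < p ∧ p ≤ k + L) ∪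
              Ico (N + 1 - L) (N + 1) ⊆
              (range (N + 1)).filter (fun k => ∃ p, P p ∧ p ≤ n ∧ k < p ∧ p ≤ k + L) := by
            intro k hk
            rcases mem_union.1 hk with h | h
            · obtain ⟨h1, h2⟩ := mem_filter.1 h
              exact mem_filter.2 ⟨mem_range.2 (by have := mem_range.1 h1; omega), h2⟩
            · rw [mem_Ico] at h
              exact mem_filter.2 ⟨mem_range.2 h.2, N + 1, hP, hN, h.2, by omega⟩
          have hdis : Disjoint ((range (u (K - 1))).filter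
              (fun k => ∃ p, P p ∧ p ≤ n ∧ k < p ∧ p ≤ k + L)) (Ico (N + 1 - L) (N + 1)) := by
            rw [disjoint_left]
            intro k hk1 hk2
            have := mem_range.1 (mem_filter.1 hk1).1
            have := (mem_Ico.1 hk2).1
            omega
          have h1 := card_le_card hsub
          rw [card_union_of_disjoint hdis, Nat.card_Ico] at h1
          have h2 : K * L = (K - 1) * L + L := by
            obtain ⟨K', rfl⟩ := Nat.exists_eq_add_of_le hK1
            rw [Nat.add_sub_cancel_left]; ring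
          rw [h2]
          refine le_trans ?_ h1
          omega
    · refine ⟨K, u, ?_, fun i hi => (huN i hi).trans (by omega), ?_⟩
      · intro p hp1 hp2 hPp
        rcases Nat.lt_succ_iff_lt_or_eq.1 (Nat.lt_succ_of_le hp2) with h | h
        · exact hcov p hp1 (by omega) hPp
        · rw [h] at hPp
          simp only [not_and, not_forall, not_lt] at hP
          obtain ⟨i, hi, h1⟩ := hP hPp
          have := huN i hi
          exact ⟨i, hi, by omega, by omega⟩
      · rcases hK with h0 | ⟨hK1, hu1, hu2, hcard⟩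
        · exact Or.inl h0
        · exact Or.inr ⟨hK1, hu1, by omega, hcard⟩

/-- the places `k < n` after which not all of the `L` digits are zero -/
noncomputable def Pl (b : ℕ) (x : ℝ) (n : ℕ) (η : ℝ) : Finset ℕ :=
  open Classical in (range n).filter (fun k => η ≤ Int.fract (x * (b:ℝ) ^ k))

/-- **Many places are followed by a nonzero digit.** -/
theorem places_lower {b : ℕ} (hb : 2 ≤ b) {x : ℝ} (halg : IsAlgebraic ℚ x) (hirr : Irrational x)
    {D : ℕ} (hD : (minpoly ℚ x).natDegree = D) :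
    ∃ c0 : ℝ, 0 < c0 ∧ ∃ n0 : ℕ, ∀ n : ℕ, n0 ≤ n → ∀ L : ℕ, 1 ≤ L →
      c0 * n * (L:ℝ) ^ (D - 1) ≤ (((Pl b x n (1 / (b:ℝ) ^ L)).card : ℝ) + L) ^ D := by
  classical
  obtain ⟨c0, hc0, n0, h⟩ := Pool.Agent.R474.AG.cover_alg hb halg hirr
  rw [hD] at h
  have hD1 : 1 ≤ D := by
    rw [← hD]
    exact minpoly.natDegree_pos halg.isIntegral
  refine ⟨c0, hc0, n0, fun n hn L hL => ?_⟩
  obtain ⟨K, u, hcov, huN, hK⟩ := greedy (fun p => digit b x p ≠ 0) L hL n n le_rfl
  have h1 := h 0 (Or.inl rfl) n K u (fun i => u i + (L - 1)) hn (fun i _ => Nat.le_add_right _ _)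
    (fun k hk hk2 => by
      obtain ⟨a1, a2⟩ := mem_Icc.1 hk
      exact hcov k a1 a2 hk2)
  have hsum : (∑ i ∈ range K, (u i + (L - 1) + 1 - u i)) = K * L := by
    rw [sum_congr rfl (fun i _ => (by omega : u i + (L - 1) + 1 - u i = L)), sum_const, card_range,
      smul_eq_mul]
  rw [hsum] at h1
  have hL0 : (0:ℝ) ≤ L := Nat.cast_nonneg _
  have h2 : c0 * n * (L:ℝ) ^ (D - 1) ≤ ((K * L : ℕ) : ℝ) ^ D := by
    calc c0 * n * (L:ℝ) ^ (D - 1) ≤ ((K:ℝ) ^ (D - 1) * ((K * L : ℕ) : ℝ)) * (L:ℝ) ^ (D - 1) :=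
          mul_le_mul_of_nonneg_right h1 (by positivity)
      _ = ((K * L : ℕ) : ℝ) ^ D := by
        obtain ⟨d, rfl⟩ := Nat.exists_eq_add_of_le hD1
        rw [Nat.add_sub_cancel_left, pow_add, pow_one]
        push_cast
        ring
  refine h2.trans ?_
  apply pow_le_pow_left₀ (Nat.cast_nonneg _)
  have h3 : K * L ≤ (Pl b x n (1 / (b:ℝ) ^ L)).card + L := by
    rcases hK with h0 | ⟨hK1, hu1, hu2, hcard⟩
    · rw [h0, Nat.zero_mul]; exact Nat.zero_le _
    · have h4 : K * L = (K - 1) * L + L := by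
        obtain ⟨K', rfl⟩ := Nat.exists_eq_add_of_le hK1
        rw [Nat.add_sub_cancel_left]; ring
      rw [h4]
      apply Nat.add_le_add_right
      refine hcard.trans (card_le_card ?_)
      intro k hk
      obtain ⟨hk1, p, hp1, hp2, hp3, hp4⟩ := mem_filter.1 hk
      rw [Pl, mem_filter]
      refine ⟨mem_range.2 (by have := mem_range.1 hk1; omega), ?_⟩
      by_contra hcon
      push Not at hcon
      apply hp1
      have := dig_zero hb x k L hcon (p - k) (by omega) (by omega)
      rwa [Nat.add_sub_cancel' hp3.le] at this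
  exact_mod_cast h3

end Pool.Agent.L7h46.MB
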