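import Pool.Agent.L7h46.MB.Main

/-!
# Nonzero digits of most multiples of an algebraic number: the main theorem
-/

set_option autoImplicit false

open Finset

namespace Pool.Agent.L7h46.MB

open Pool.Agent.H820R3.DG (digit)

/-- double counting -/
lemma bad_count {b : ℕ} (hb : 2 ≤ b) {x : ℝ} (hirr : Irrational x) (Q : ℕ) (hQ : 1 ≤ Q) (M : ℕ)
    (hM : 16 * Q ^ 2 ≤ M) (l : ℕ) (hl : 16 * (Q:ℝ) ^ 2 ≤ (b:ℝ) ^ l) (n : ℕ)
    (hG : 0 < (Pl b (Q.factorial * x) n ((Q.factorial : ℝ) / (2 * M))).card) :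
    (((Icc 1 M).filter (fun m : ℕ => ¬
      ((Pl b (Q.factorial * x) n ((Q.factorial : ℝ) / (2 * M))).card : ℝ) ≤
        2 * l * (oth b (m * x) n + l))).card : ℝ) ≤ 4 * M / Q := by
  classical
  set G := Pl b (Q.factorial * x) n ((Q.factorial : ℝ) / (2 * M)) with hGdef
  have hQr : (1:ℝ) ≤ Q := by exact_mod_cast hQ
  have hGr : (0:ℝ) < G.card := by exact_mod_cast hG
  have hGsub : G ⊆ range n := by rw [hGdef]; unfold Pl; exact filter_subset _ _
  have hbl : (0:ℝ) < (b:ℝ) ^ l := by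
    have : (0:ℝ) < b := by
      have : 0 < b := by omega
      exact_mod_cast this
    positivity
  have hτ : 1 / (b:ℝ) ^ l ≤ 1 / (16 * (Q:ℝ) ^ 2) := one_div_le_one_div_of_le (by positivity) hl
  -- each place
  have hplace : ∀ k ∈ G, (((Icc 1 M).filter (fun m : ℕ =>
      Int.fract (m * x * (b:ℝ) ^ k) < 1 / (b:ℝ) ^ l)).card : ℝ) ≤ 2 * M / Q := by
    intro k hk
    have hirr' : Irrational (x * (b:ℝ) ^ k) := by
      have h1 := hirr.mul_natCast (m := b ^ k) (by
        have : 0 < b := by omega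
        positivity)
      have h2 : ((b ^ k : ℕ) : ℝ) = (b:ℝ) ^ k := by push_cast; rfl
      rwa [h2] at h1
    have h1 := arc_count (x * (b:ℝ) ^ k) hirr' Q hQ M hM (1 / (b:ℝ) ^ l) (by positivity) hτ (by
      rw [hGdef] at hk
      unfold Pl at hk
      have h2 := (mem_filter.1 hk).2
      rwa [mul_assoc] at h2)
    refine le_trans (le_of_eq ?_) h1
    congr 2
    refine filter_congr fun m _ => ?_
    rw [mul_assoc]
  set E := (Icc 1 M).filter (fun m : ℕ => ¬ (G.card : ℝ) ≤ 2 * l * (oth b (m * x) n + l)) with hE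
  -- for each bad `m` at least half of the places are bad
  have hm : ∀ m ∈ E, (G.card : ℝ) / 2 ≤
      ((G.filter (fun k => Int.fract (m * x * (b:ℝ) ^ k) < 1 / (b:ℝ) ^ l)).card : ℝ) := by
    intro m hm
    have h1 := (mem_filter.1 hm).2
    push Not at h1
    have h2 := oth_lower hb (m * x) n l (G.filter (fun k => ¬ Int.fract (m * x * (b:ℝ) ^ k) < 1 / (b:ℝ) ^ l))
      ((filter_subset _ _).trans hGsub) (by
        intro k hk
        have := (mem_filter.1 hk).2
        push Not at this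
        exact this)
    have h3 := card_filter_add_card_filter_not (s := G)
      (p := fun k => Int.fract (m * x * (b:ℝ) ^ k) < 1 / (b:ℝ) ^ l)
    have h2r : (((G.filter (fun k => ¬ Int.fract (m * x * (b:ℝ) ^ k) < 1 / (b:ℝ) ^ l)).card : ℕ) : ℝ) ≤
        l * (oth b (m * x) n + l) := by exact_mod_cast h2
    have h3r : (((G.filter (fun k => Int.fract (m * x * (b:ℝ) ^ k) < 1 / (b:ℝ) ^ l)).card : ℕ) : ℝ) +
        (((G.filter (fun k => ¬ Int.fract (m * x * (b:ℝ) ^ k) < 1 / (b:ℝ) ^ l)).card : ℕ) : ℝ) = G.card := by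
      exact_mod_cast h3
    linarith
  -- double counting
  have h1 : ∑ m ∈ E, (G.card : ℝ) / 2 ≤ ∑ m ∈ Icc 1 M,
      ((G.filter (fun k => Int.fract (m * x * (b:ℝ) ^ k) < 1 / (b:ℝ) ^ l)).card : ℝ) :=
    (sum_le_sum hm).trans (sum_le_sum_of_subset_of_nonneg (filter_subset _ _)
      (fun _ _ _ => Nat.cast_nonneg _))
  have h2 : ∑ m ∈ Icc 1 M,
      ((G.filter (fun k => Int.fract (m * x * (b:ℝ) ^ k) < 1 / (b:ℝ) ^ l)).card : ℝ) =
      ∑ k ∈ G, (((Icc 1 M).filter (fun m : ℕ =>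
      Int.fract (m * x * (b:ℝ) ^ k) < 1 / (b:ℝ) ^ l)).card : ℝ) := by
    simp_rw [card_filter]
    push_cast
    rw [sum_comm]
  rw [h2, sum_const, nsmul_eq_mul] at h1
  have h3 := h1.trans (sum_le_sum hplace)
  rw [sum_const, nsmul_eq_mul] at h3
  have h4 : (E.card : ℝ) * ((G.card : ℝ) / 2) ≤ (4 * M / Q) * ((G.card : ℝ) / 2) := by
    refine h3.trans (le_of_eq ?_)
    ring
  exact le_of_mul_le_mul_right h4 (by linarith)

open Classical in
/-- **Main theorem** for the digit zero -/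
theorem main_zero {b : ℕ} (hb : 2 ≤ b) {x : ℝ} (halg : IsAlgebraic ℚ x) (hirr : Irrational x)
    {D : ℕ} (hD : (minpoly ℚ x).natDegree = D) (δ : ℝ) (hδ : 0 < δ) :
    ∃ c : ℝ, 0 < c ∧ ∃ n0 : ℕ, ∀ n : ℕ, n0 ≤ n → ∀ M : ℕ, 1 ≤ M → M ≤ b ^ n →
      (((Icc 1 M).filter (fun m : ℕ => ¬ c * ((n:ℝ) ^ (1 / (D:ℝ)) *
        (1 + Real.log M) ^ (1 - 1 / (D:ℝ))) ≤ oth b (m * x) n)).card : ℝ) ≤ δ * M := by
  have hD1 : 1 ≤ D := by
    rw [← hD]
    exact minpoly.natDegree_pos halg.isIntegral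
  have hD0 : (0:ℝ) < D := by exact_mod_cast hD1
  have hD1r : (1:ℝ) ≤ D := by exact_mod_cast hD1
  have hb0 : (0:ℝ) < b := by
    have : 0 < b := by omega
    exact_mod_cast this
  have hb2 : (2:ℝ) ≤ b := by exact_mod_cast hb
  have hlb : 0 < Real.log b := Real.log_pos (by linarith)
  have hexp : 0 ≤ 1 - 1 / (D:ℝ) := by
    rw [sub_nonneg, div_le_one hD0]; exact hD1r
  -- parameters
  obtain ⟨Q, hQ⟩ := exists_nat_ge (max 1 (4 / δ))
  have hQ1r : (1:ℝ) ≤ Q := (le_max_left _ _).trans hQ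
  have hQ1 : 1 ≤ Q := by exact_mod_cast hQ1r
  have hQδ : 4 / δ ≤ Q := (le_max_right _ _).trans hQ
  set F : ℕ := Q.factorial with hF
  have hF1 : 1 ≤ F := Nat.factorial_pos Q
  have hF1r : (1:ℝ) ≤ F := by exact_mod_cast hF1
  set l : ℕ := 16 * Q ^ 2 with hl
  have hl1 : 1 ≤ l := by rw [hl]; nlinarith
  have hlr : (1:ℝ) ≤ l := by exact_mod_cast hl1
  have hlb' : 16 * (Q:ℝ) ^ 2 ≤ (b:ℝ) ^ l := by
    have h1 : l ≤ b ^ l := (Nat.lt_pow_self (by omega : 1 < b)).le
    have h2 : (l:ℝ) ≤ (b:ℝ) ^ l := by exact_mod_cast h1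
    refine le_trans (le_of_eq ?_) h2
    rw [hl]; push_cast; ring
  -- the number `F x`
  have halg' : IsAlgebraic ℚ ((F:ℝ) * x) := (isAlgebraic_natCast _).mul halg
  have hirr' : Irrational ((F:ℝ) * x) := hirr.natCast_mul (by omega)
  have hD' : (minpoly ℚ ((F:ℝ) * x)).natDegree = D := by
    have := deg_mul x halg (F : ℚ) (by exact_mod_cast (by omega : F ≠ 0))
    rw [← hD, ← this]
    congr 2
  obtain ⟨c0, hc0, n1, hpl⟩ := places_lower hb halg' hirr' hD'
  -- the bound for large `M`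
  obtain ⟨M0, hM0⟩ := exists_nat_ge (max (16 * (Q:ℝ) ^ 2)
    (max ((F:ℝ) * b) (Real.exp (4 * (Real.log F + Real.log b + 1)))))
  obtain ⟨cs, hcs, n2, hsm⟩ := small_mult hb halg hirr hD M0
  set κ : ℝ := min (1 / (2 * Real.log b)) (c0 / (2 ^ (D + 1) * (1 + Real.log b))) with hκ
  have hκ0 : 0 < κ := lt_min (by positivity) (by positivity)
  set c1 : ℝ := c0 ^ (1 / (D:ℝ)) * κ ^ (1 - 1 / (D:ℝ)) / 2 with hc1
  have hc10 : 0 < c1 := by
    rw [hc1]
    have h1 := Real.rpow_pos_of_pos hc0 (1 / (D:ℝ))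
    have h2 := Real.rpow_pos_of_pos hκ0 (1 - 1 / (D:ℝ))
    positivity
  obtain ⟨n3, hn3⟩ := exists_nat_ge (max 1 (max (2 ^ (D + 1) / c0) ((4 * l ^ 2 / c1) ^ (D:ℝ))))
  have hlM0 : 0 < 1 + Real.log (M0 + 1) := by
    have : 0 ≤ Real.log ((M0:ℝ) + 1) := Real.log_nonneg (by
      have : (0:ℝ) ≤ M0 := Nat.cast_nonneg _
      linarith)
    linarith
  refine ⟨min (c1 / (4 * l)) (cs / (1 + Real.log (M0 + 1)) ^ (1 - 1 / (D:ℝ))),
    lt_min (by positivity) (by positivity), max n1 (max n2 n3), fun n hn M hM1 hMn => ?_⟩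
  have hnn1 : n1 ≤ n := (le_max_left _ _).trans hn
  have hnn2 : n2 ≤ n := ((le_max_left _ _).trans (le_max_right _ _)).trans hn
  have hnn3 : (n3:ℝ) ≤ n := by exact_mod_cast ((le_max_right _ _).trans (le_max_right _ _)).trans hn
  have hn1r : (1:ℝ) ≤ n := ((le_max_left _ _).trans hn3).trans hnn3
  have hMr : (1:ℝ) ≤ M := by exact_mod_cast hM1
  have hlogM : 0 ≤ Real.log M := Real.log_nonneg hMr
  set V : ℝ := (n:ℝ) ^ (1 / (D:ℝ)) * (1 + Real.log M) ^ (1 - 1 / (D:ℝ)) with hV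
  have hV0 : 0 ≤ V := by positivity
  rcases Nat.lt_or_ge M M0 with hlt | hge
  · -- small `M`
    have h0 : ((Icc 1 M).filter (fun m : ℕ => ¬ min (c1 / (4 * l))
        (cs / (1 + Real.log (M0 + 1)) ^ (1 - 1 / (D:ℝ))) * V ≤ oth b (m * x) n)) = ∅ := by
      rw [filter_eq_empty_iff]
      intro m hm
      rw [not_not]
      rw [mem_Icc] at hm
      have h1 := hsm n hnn2 m hm.1 (hm.2.trans hlt.le)
      refine le_trans ?_ h1
      have h2 : (1 + Real.log M) ^ (1 - 1 / (D:ℝ)) ≤ (1 + Real.log (M0 + 1)) ^ (1 - 1 / (D:ℝ)) := by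
        apply Real.rpow_le_rpow (by linarith) _ hexp
        have : (M:ℝ) ≤ M0 + 1 := by
          have : (M:ℝ) ≤ M0 := by exact_mod_cast hlt.le
          linarith
        have := Real.log_le_log (by linarith) this
        linarith
      have h3 : 0 < (1 + Real.log (M0 + 1)) ^ (1 - 1 / (D:ℝ)) := Real.rpow_pos_of_pos hlM0 _
      calc min (c1 / (4 * l)) (cs / (1 + Real.log (M0 + 1)) ^ (1 - 1 / (D:ℝ))) * V
          ≤ cs / (1 + Real.log (M0 + 1)) ^ (1 - 1 / (D:ℝ)) * V :=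
            mul_le_mul_of_nonneg_right (min_le_right _ _) hV0
        _ ≤ cs / (1 + Real.log (M0 + 1)) ^ (1 - 1 / (D:ℝ)) *
            ((n:ℝ) ^ (1 / (D:ℝ)) * (1 + Real.log (M0 + 1)) ^ (1 - 1 / (D:ℝ))) := by
            rw [hV]; gcongr
        _ = cs * (n:ℝ) ^ (1 / (D:ℝ)) := by field_simp
    rw [h0, card_empty, Nat.cast_zero]
    positivity
  · -- large `M`
    have hgeR : (M0:ℝ) ≤ M := by exact_mod_cast hge
    have hMQ : 16 * (Q:ℝ) ^ 2 ≤ M := ((le_max_left _ _).trans hM0).trans hgeR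
    have hMQn : 16 * Q ^ 2 ≤ M := by exact_mod_cast hMQ
    have hMF : (F:ℝ) * b ≤ M :=
      (((le_max_left _ _).trans (le_max_right _ _)).trans hM0).trans hgeR
    have hMe : Real.exp (4 * (Real.log F + Real.log b + 1)) ≤ M :=
      (((le_max_right _ _).trans (le_max_right _ _)).trans hM0).trans hgeR
    have hlF : 0 ≤ Real.log F := Real.log_nonneg hF1r
    have hlogM4 : 4 * (Real.log F + Real.log b + 1) ≤ Real.log M := by
      rw [Real.le_log_iff_exp_le (by linarith)]; exact hMe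
    -- the length
    set L : ℕ := Nat.log b (M / F) with hL
    have hMF0 : M / F ≠ 0 := by
      have h1 : F * b ≤ M := by exact_mod_cast hMF
      have h2 : 0 < M / F := Nat.div_pos (by nlinarith) (by omega)
      omega
    have hL1 : 1 ≤ L := by
      rw [hL]
      apply Nat.log_pos (by omega)
      rw [Nat.le_div_iff_mul_le (by omega)]
      have h1 : F * b ≤ M := by exact_mod_cast hMF
      linarith [Nat.mul_comm F b]
    have hbL : (b:ℝ) ^ L ≤ M / F := by
      have h1 : b ^ L ≤ M / F := Nat.pow_log_le_self b hMF0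
      have h2 : (((M / F : ℕ)) : ℝ) ≤ (M:ℝ) / F := Nat.cast_div_le
      refine le_trans ?_ h2
      exact_mod_cast h1
    have hLlow : κ * (1 + Real.log M) ≤ L := by
      have h1 : M / F < b ^ (L + 1) := Nat.lt_pow_succ_log_self (by omega) _
      have h2 : (M:ℝ) / F < (b:ℝ) ^ (L + 1) := by
        have h3 : M / F + 1 ≤ b ^ (L + 1) := h1
        have h4 : (((M / F : ℕ)) : ℝ) + 1 ≤ (b:ℝ) ^ (L + 1) := by exact_mod_cast h3
        have h5 : (M:ℝ) / F < (((M / F : ℕ)) : ℝ) + 1 := by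
          rw [div_lt_iff₀ (by linarith)]
          have h6 := Nat.lt_mul_div_succ M (by omega : 0 < F)
          have h7 : M < F * (M / F + 1) := h6
          have h8 : (M:ℝ) < F * ((((M / F : ℕ)) : ℝ) + 1) := by exact_mod_cast h7
          linarith
        linarith
      have h3 := Real.log_lt_log (by positivity) h2
      rw [Real.log_div (by linarith) (by linarith), Real.log_pow] at h3
      push_cast at h3
      have h4 : κ ≤ 1 / (2 * Real.log b) := min_le_left _ _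
      have h5 : κ * (1 + Real.log M) ≤ 1 / (2 * Real.log b) * (1 + Real.log M) := by gcongr
      refine h5.trans ?_
      rw [one_div, inv_mul_le_iff₀ (by positivity)]
      linarith
    -- the length used
    set L' : ℕ := min L ⌊c0 * n / 2 ^ D⌋₊ with hL'
    have hfl : κ * (1 + Real.log M) ≤ (⌊c0 * n / 2 ^ D⌋₊ : ℝ) := by
      have h1 : c0 * n / 2 ^ D < ⌊c0 * n / 2 ^ D⌋₊ + 1 := Nat.lt_floor_add_one _
      have h2 : 2 ^ (D + 1) / c0 ≤ n :=
        (((le_max_left _ _).trans (le_max_right _ _)).trans hn3).trans hnn3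
      rw [div_le_iff₀ hc0] at h2
      have h3 : 1 ≤ c0 * n / 2 ^ (D + 1) := by
        rw [le_div_iff₀ (by positivity)]; linarith
      have h4 : c0 * n / 2 ^ D = 2 * (c0 * n / 2 ^ (D + 1)) := by
        rw [pow_succ]; field_simp
      have h5 : Real.log M ≤ n * Real.log b := by
        have h6 : (M:ℝ) ≤ (b:ℝ) ^ n := by exact_mod_cast hMn
        have h7 := Real.log_le_log (by linarith) h6
        rwa [Real.log_pow] at h7
      have h6 : 1 + Real.log M ≤ n * (1 + Real.log b) := by nlinarith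
      have h7 : κ ≤ c0 / (2 ^ (D + 1) * (1 + Real.log b)) := min_le_right _ _
      have h8 : κ * (1 + Real.log M) ≤ c0 / (2 ^ (D + 1) * (1 + Real.log b)) * (n * (1 + Real.log b)) := by
        gcongr
      have h9 : c0 / (2 ^ (D + 1) * (1 + Real.log b)) * (n * (1 + Real.log b)) =
          c0 * n / 2 ^ (D + 1) := by
        have : 1 + Real.log b ≠ 0 := by positivity
        field_simp
      rw [h9] at h8
      linarith
    have hfl1 : 1 ≤ ⌊c0 * n / 2 ^ D⌋₊ := by
      have h1 : 0 < κ * (1 + Real.log M) := by positivity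
      have h2 : (0:ℝ) < ⌊c0 * n / 2 ^ D⌋₊ := by linarith
      have h3 : 0 < ⌊c0 * n / 2 ^ D⌋₊ := by exact_mod_cast h2
      omega
    have hL'1 : 1 ≤ L' := le_min hL1 hfl1
    have hL'low : κ * (1 + Real.log M) ≤ L' := by
      rw [hL', Nat.cast_min]
      exact le_min hLlow hfl
    have hL'L : L' ≤ L := min_le_left _ _
    have hL'n : (L':ℝ) ≤ c0 * n / 2 ^ D := by
      have h1 : L' ≤ ⌊c0 * n / 2 ^ D⌋₊ := min_le_right _ _
      have h2 : (⌊c0 * n / 2 ^ D⌋₊ : ℝ) ≤ c0 * n / 2 ^ D := Nat.floor_le (by positivity)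
      refine le_trans ?_ h2
      exact_mod_cast h1
    -- the good places
    set G := Pl b ((Q.factorial : ℝ) * x) n ((Q.factorial : ℝ) / (2 * M)) with hG
    set A := Pl b ((F:ℝ) * x) n (1 / (b:ℝ) ^ L') with hA
    have hAG : A.card ≤ G.card := by
      apply card_le_card
      intro k hk
      rw [hA] at hk
      unfold Pl at hk
      rw [hG]
      unfold Pl
      rw [mem_filter] at hk ⊢
      refine ⟨hk.1, le_trans ?_ hk.2⟩
      have h1 : (b:ℝ) ^ L' ≤ M / F :=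
        (pow_le_pow_right₀ (by linarith) hL'L).trans hbL
      rw [div_le_div_iff₀ (by positivity) (by positivity), one_mul]
      rw [le_div_iff₀ (by linarith)] at h1
      calc (Q.factorial : ℝ) * (b:ℝ) ^ L' = (b:ℝ) ^ L' * F := by rw [hF]; ring
        _ ≤ M := h1
        _ ≤ 2 * M := by linarith
    have hAlow : c0 * n * (L':ℝ) ^ (D - 1) ≤ ((A.card : ℝ) + L') ^ D := hpl n hnn1 L' hL'1
    set Y : ℝ := c0 * n * (L':ℝ) ^ (D - 1) with hY
    have hY0 : 0 ≤ Y := by positivity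
    have hL'0 : (0:ℝ) < L' := by exact_mod_cast hL'1
    have hYD : Y ^ (1 / (D:ℝ)) ≤ (A.card : ℝ) + L' := by
      have h5 := Real.rpow_le_rpow hY0 hAlow (by positivity : (0:ℝ) ≤ 1 / (D:ℝ))
      rwa [← Real.rpow_natCast, ← Real.rpow_mul (by positivity), mul_one_div_cancel hD0.ne',
        Real.rpow_one] at h5
    have hY2 : 2 * (L':ℝ) ≤ Y ^ (1 / (D:ℝ)) := by
      have h1 : (2 * (L':ℝ)) ^ D ≤ Y := by
        rw [hY, mul_pow]
        rw [le_div_iff₀ (by positivity)] at hL'n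
        have h2 : (L':ℝ) ^ D = L' * (L':ℝ) ^ (D - 1) := by
          rw [← pow_succ']
          congr 1
          omega
        rw [h2]
        calc 2 ^ D * (L' * (L':ℝ) ^ (D - 1)) = (L' * 2 ^ D) * (L':ℝ) ^ (D - 1) := by ring
          _ ≤ _ := mul_le_mul_of_nonneg_right hL'n (by positivity)
      have h5 := Real.rpow_le_rpow (by positivity) h1 (by positivity : (0:ℝ) ≤ 1 / (D:ℝ))
      rwa [← Real.rpow_natCast, ← Real.rpow_mul (by positivity), mul_one_div_cancel hD0.ne',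
        Real.rpow_one] at h5
    have hYV : 2 * (c1 * V) ≤ Y ^ (1 / (D:ℝ)) := by
      have h1 : Y ^ (1 / (D:ℝ)) = c0 ^ (1 / (D:ℝ)) * (n:ℝ) ^ (1 / (D:ℝ)) *
          (L':ℝ) ^ (1 - 1 / (D:ℝ)) := by
        rw [hY, Real.mul_rpow (by positivity) (by positivity), Real.mul_rpow hc0.le (Nat.cast_nonneg _)]
        congr 1
        rw [← Real.rpow_natCast, ← Real.rpow_mul (by positivity)]
        congr 1
        rw [Nat.cast_sub hD1]
        field_simp
        push_cast
        ring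
      have h2 : (κ * (1 + Real.log M)) ^ (1 - 1 / (D:ℝ)) ≤ (L':ℝ) ^ (1 - 1 / (D:ℝ)) :=
        Real.rpow_le_rpow (by positivity) hL'low hexp
      rw [Real.mul_rpow hκ0.le (by linarith)] at h2
      rw [h1, hc1, hV]
      calc 2 * (c0 ^ (1 / (D:ℝ)) * κ ^ (1 - 1 / (D:ℝ)) / 2 *
            ((n:ℝ) ^ (1 / (D:ℝ)) * (1 + Real.log M) ^ (1 - 1 / (D:ℝ))))
          = c0 ^ (1 / (D:ℝ)) * (n:ℝ) ^ (1 / (D:ℝ)) *
            (κ ^ (1 - 1 / (D:ℝ)) * (1 + Real.log M) ^ (1 - 1 / (D:ℝ))) := by ring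
        _ ≤ _ := by gcongr
    have hGlow : c1 * V ≤ G.card := by
      have h1 : (A.card : ℝ) ≤ G.card := by exact_mod_cast hAG
      linarith
    -- `V` is large
    have hVn : (n:ℝ) ^ (1 / (D:ℝ)) ≤ V := by
      have h1 : 1 ≤ (1 + Real.log M) ^ (1 - 1 / (D:ℝ)) :=
        Real.one_le_rpow (by linarith) hexp
      rw [hV]
      have h2 : (0:ℝ) ≤ (n:ℝ) ^ (1 / (D:ℝ)) := by positivity
      nlinarith
    have hVl : 4 * (l:ℝ) ^ 2 / c1 ≤ V := by
      refine le_trans ?_ hVn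
      have h6 : (4 * (l:ℝ) ^ 2 / c1) ^ (D:ℝ) ≤ n :=
        (((le_max_right _ _).trans (le_max_right _ _)).trans hn3).trans hnn3
      have h7 := Real.rpow_le_rpow (by positivity) h6 (by positivity : (0:ℝ) ≤ 1 / (D:ℝ))
      rwa [← Real.rpow_mul (by positivity), mul_one_div_cancel hD0.ne', Real.rpow_one] at h7
    rw [div_le_iff₀ hc10] at hVl
    have hGpos : 0 < G.card := by
      have h1 : (0:ℝ) < G.card := by
        have : (0:ℝ) < 4 * (l:ℝ) ^ 2 := by positivity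
        linarith
      exact_mod_cast h1
    have h1 := bad_count hb hirr Q hQ1 M hMQn l hlb' n hGpos
    have h2 : ((Icc 1 M).filter (fun m : ℕ => ¬ min (c1 / (4 * l))
        (cs / (1 + Real.log (M0 + 1)) ^ (1 - 1 / (D:ℝ))) * V ≤ oth b (m * x) n)).card ≤
        ((Icc 1 M).filter (fun m : ℕ => ¬ (G.card : ℝ) ≤ 2 * l * (oth b (m * x) n + l))).card := by
      apply card_le_card
      intro m hm
      rw [mem_filter] at hm ⊢
      refine ⟨hm.1, fun hcon => hm.2 ?_⟩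
      have h3 : min (c1 / (4 * l)) (cs / (1 + Real.log (M0 + 1)) ^ (1 - 1 / (D:ℝ))) * V ≤
          c1 / (4 * l) * V := mul_le_mul_of_nonneg_right (min_le_left _ _) hV0
      refine h3.trans ?_
      rw [div_mul_eq_mul_div, div_le_iff₀ (by positivity)]
      nlinarith
    have h3 : (((Icc 1 M).filter (fun m : ℕ => ¬ min (c1 / (4 * l))
        (cs / (1 + Real.log (M0 + 1)) ^ (1 - 1 / (D:ℝ))) * V ≤ oth b (m * x) n)).card : ℝ) ≤
        4 * M / Q := le_trans (Nat.cast_le.2 h2) h1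
    refine h3.trans ?_
    rw [div_le_iff₀ (by linarith)]
    rw [div_le_iff₀ hδ] at hQδ
    nlinarith

end Pool.Agent.L7h46.MB
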